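import Pool.Agent.J4.H74.FlowEnt

/-!
# Finite entropy factors of a fixed-point free flow need not separate points
-/

set_option autoImplicit false

open Set Filter Topology Function

namespace Pool.Agent.Results.MP_54b048_an.InfiniteEntropyFactors

open Pool.Agent.J4.H74.FlowEnt Dynamics

/-- The image under a continuous function of `Lip` is controlled by the values on a compact
interval. -/
lemma near {a : Lip → ℝ} (ha : Continuous a) (c : ℝ) (hc : 0 ≤ c ∧ c ≤ 1) {U : Set ℝ} (hU : IsOpen U)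
    (hcU : a (cst c hc) ∈ U) : ∃ k₀ : ℕ, ∀ k : ℕ, k₀ ≤ k → ∀ g : Lip,
      (∀ s : ℝ, |s| ≤ k → g.1 s = c) → a g ∈ U := by
  by_contra hcon
  push Not at hcon
  choose k hk g hg1 hg2 using hcon
  have hlim : Tendsto g atTop (𝓝 (cst c hc)) := by
    rw [tendsto_subtype_rng, tendsto_pi_nhds]
    intro s
    refine tendsto_const_nhds.congr' ?_
    obtain ⟨m, hm⟩ := exists_nat_ge |s|
    filter_upwards [eventually_ge_atTop m] with i hi
    refine (hg1 i s (hm.trans ?_)).symm
    exact_mod_cast hi.trans (hk i)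
  have h1 := ((ha.tendsto _).comp hlim).eventually (hU.mem_nhds hcU)
  obtain ⟨i, hi⟩ := h1.exists
  exact hg2 i hi

/-- Independence: along the arithmetic progression `jL` any values strictly between the two
extreme ones are attained, by the theorem of Poincaré and Miranda. -/
lemma realize {a : Lip → ℝ} (ha : Continuous a) {l u : ℝ} {k : ℕ}
    (h0 : ∀ g : Lip, (∀ s : ℝ, |s| ≤ k → g.1 s = 0) → a g ≤ l)
    (h1 : ∀ g : Lip, (∀ s : ℝ, |s| ≤ k → g.1 s = 1) → u ≤ a g) (M : ℕ) (v : Fin (M + 1) → ℝ)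
    (hv : ∀ j, l ≤ v j ∧ v j ≤ u) :
    ∃ g : Lip, ∀ j : Fin (M + 1), a (shift ((j : ℕ) * ((2 * k + 2 : ℕ) : ℝ)) g) = v j := by
  have hc : Continuous fun t : Fin (M + 1) → ℝ => fun j : Fin (M + 1) =>
      a (shift ((j : ℕ) * ((2 * k + 2 : ℕ) : ℝ)) (pt k M t)) - v j := by
    refine continuous_pi fun j => Continuous.sub (ha.comp ?_) continuous_const
    exact shift_cont.comp (continuous_const.prodMk (pt_cont k M))
  obtain ⟨t, -, ht⟩ := Pool.Agent.Helper475.Miranda.poincare_miranda (M + 1)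
    (fun t j => a (shift ((j : ℕ) * ((2 * k + 2 : ℕ) : ℝ)) (pt k M t)) - v j) hc.continuousOn
    (fun t _ j hj => by
      have := h0 (shift ((j : ℕ) * ((2 * k + 2 : ℕ) : ℝ)) (pt k M t)) fun s hs => by
        rw [shift_pt k M t j hs, hj, clip_zero]
      simp only [tsub_le_iff_right, zero_add]
      exact this.trans (hv j).1)
    (fun t _ j hj => by
      have := h1 (shift ((j : ℕ) * ((2 * k + 2 : ℕ) : ℝ)) (pt k M t)) fun s hs => by
        rw [shift_pt k M t j hs, hj, clip_one]
      simp only [sub_nonneg]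
      exact (hv j).2.trans this)
  refine ⟨pt k M t, fun j => ?_⟩
  have := congrFun ht j
  simp only [Pi.zero_apply] at this
  linarith

/-- A net from prescribed values. -/
lemma net_card {Y : Type*} [MetricSpace Y] (T : Y → Y) {F : Y → ℝ} (hF : ∀ x y, |F x - F y| ≤ dist x y)
    {l D : ℝ} (hD : 0 < D) {m L M : ℕ} (hm : 0 < m)
    (h : ∀ v : Fin (M + 1) → ℝ, (∀ j, l ≤ v j ∧ v j ≤ l + D) →
      ∃ y : Y, ∀ j : Fin (M + 1), F (T^[(j : ℕ) * L] y) = v j) :
    (((m + 1) ^ (M + 1) : ℕ) : ℕ∞) ≤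
      netMaxcard T univ {p : Y × Y | dist p.1 p.2 < D / (2 * m)} (L * M + 1) := by
  classical
  have hm0 : (0 : ℝ) < m := by exact_mod_cast hm
  have hlev : ∀ s : Fin (M + 1) → Fin (m + 1), ∀ j, l ≤ l + D / m * ((s j : ℕ) : ℝ) ∧
      l + D / m * ((s j : ℕ) : ℝ) ≤ l + D := by
    intro s j
    constructor
    · have : 0 ≤ D / m * ((s j : ℕ) : ℝ) := by positivity
      linarith
    · have h1 : ((s j : ℕ) : ℝ) ≤ m := by exact_mod_cast Nat.lt_succ_iff.1 (s j).2
      have : D / m * ((s j : ℕ) : ℝ) ≤ D / m * m := by gcongr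
      rw [div_mul_cancel₀ _ hm0.ne'] at this
      linarith
  choose y hy using fun s : Fin (M + 1) → Fin (m + 1) => h (fun j => l + D / m * ((s j : ℕ) : ℝ)) (hlev s)
  -- distinct codes give values at distance at least `D / m`
  have hsep : ∀ s s' : Fin (M + 1) → Fin (m + 1), s ≠ s' → ∃ j : Fin (M + 1),
      D / m ≤ |F (T^[(j : ℕ) * L] (y s)) - F (T^[(j : ℕ) * L] (y s'))| := by
    intro s s' hss
    obtain ⟨j, hj⟩ := Function.ne_iff.1 hss
    refine ⟨j, ?_⟩
    rw [hy s j, hy s' j]
    have e : l + D / m * ((s j : ℕ) : ℝ) - (l + D / m * ((s' j : ℕ) : ℝ)) =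
        D / m * (((s j : ℕ) : ℝ) - ((s' j : ℕ) : ℝ)) := by ring
    rw [e, abs_mul, abs_of_pos (by positivity : 0 < D / m)]
    have h2 : ((s j : ℕ) : ℤ) - ((s' j : ℕ) : ℤ) ≠ 0 := by
      intro h
      apply hj
      apply Fin.ext
      omega
    have h3 : (1 : ℤ) ≤ |((s j : ℕ) : ℤ) - ((s' j : ℕ) : ℤ)| := Int.one_le_abs h2
    have h4 : (1 : ℝ) ≤ |((s j : ℕ) : ℝ) - ((s' j : ℕ) : ℝ)| := by exact_mod_cast h3
    have h5 : 0 < D / m := by positivity
    nlinarith
  have hinj : Injective y := by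
    intro s s' hss
    by_contra hne
    obtain ⟨j, hj⟩ := hsep s s' hne
    rw [hss, sub_self, abs_zero] at hj
    have h5 : 0 < D / m := by positivity
    linarith
  have hnet : IsDynNetIn T univ {p : Y × Y | dist p.1 p.2 < D / (2 * m)} (L * M + 1)
      (Finset.univ.image y : Finset Y) := by
    refine ⟨subset_univ _, ?_⟩
    intro a ha b hb hab
    obtain ⟨s, -, rfl⟩ := Finset.mem_image.1 (Finset.mem_coe.1 ha)
    obtain ⟨s', -, rfl⟩ := Finset.mem_image.1 (Finset.mem_coe.1 hb)
    have hne : s ≠ s' := fun h => hab (by rw [h])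
    obtain ⟨j, hj⟩ := hsep s s' hne
    rw [Function.onFun, disjoint_left]
    intro z hz hz'
    rw [mem_ball_dynEntourage] at hz hz'
    have hlt : (j : ℕ) * L < L * M + 1 := by
      have h1 : (j : ℕ) ≤ M := Nat.lt_succ_iff.1 j.2
      have h2 : (j : ℕ) * L ≤ M * L := Nat.mul_le_mul_right _ h1
      rw [mul_comm L M]
      omega
    have h1 : dist (T^[(j : ℕ) * L] (y s)) (T^[(j : ℕ) * L] z) < D / (2 * m) := hz _ hlt
    have h2 : dist (T^[(j : ℕ) * L] (y s')) (T^[(j : ℕ) * L] z) < D / (2 * m) := hz' _ hlt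
    have h3 := hF (T^[(j : ℕ) * L] (y s)) (T^[(j : ℕ) * L] (y s'))
    have h4 := dist_triangle_right (T^[(j : ℕ) * L] (y s)) (T^[(j : ℕ) * L] (y s'))
      (T^[(j : ℕ) * L] z)
    have h5 : D / (2 * m) + D / (2 * m) = D / m := by
      field_simp
      ring
    linarith
  have h1 := hnet.card_le_netMaxcard
  rw [Finset.card_image_of_injective _ hinj, Finset.card_univ, Fintype.card_fun, Fintype.card_fin,
    Fintype.card_fin] at h1
  exact h1

/-- **Negative answer to Q1.** There are a compact metrizable space `X`, a fixed-point free flow `φ`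
on `X` and two points `w ≠ w'` such that every flow factor map `π : X → Y` onto a flow `ψ` on a
compact metrizable space `Y` (with any choice of compatible metric) with `π w ≠ π w'` has infinite
topological entropy: `h_top(Y, 1) = ∞`. -/
theorem result.{u} : ∃ (X : Type) (_ : TopologicalSpace X) (_ : CompactSpace X)
    (_ : TopologicalSpace.MetrizableSpace X) (φ : Flow ℝ X) (w w' : X),
    (¬ ∃ x : X, ∀ t : ℝ, φ t x = x) ∧ w ≠ w' ∧
    ∀ (Y : Type u) [MetricSpace Y] [CompactSpace Y] (ψ : Flow ℝ Y) (π : X → Y),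
      Continuous π → Surjective π → (∀ (t : ℝ) (x : X), π (φ t x) = ψ t (π x)) → π w ≠ π w' →
      coverEntropy (ψ 1) (univ : Set Y) = ⊤ := by
  refine ⟨X, inferInstance, inferInstance, inferInstance, φ, (cst 0 (by norm_num), 0),
    (cst 1 (by norm_num), 0), φ_free, ?_, ?_⟩
  · intro h
    have h1 := congrArg (fun p : X => p.1.1 0) h
    simp [cst] at h1
  · intro Y _ _ ψ π hπc hπs hπ hne
    set y0 : Y := π (cst 0 (by norm_num), 0) with hy0
    set y1 : Y := π (cst 1 (by norm_num), 0) with hy1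
    set F : Y → ℝ := fun y => dist y y0 with hF
    set D : ℝ := dist y1 y0 with hD
    have hD0 : 0 < D := dist_pos.2 (Ne.symm hne)
    set a : Lip → ℝ := fun g => F (π (g, 0)) with ha
    have hac : Continuous a :=
      (continuous_id.dist continuous_const).comp (hπc.comp (continuous_id.prodMk continuous_const))
    have ha0 : a (cst 0 (by norm_num)) = 0 := dist_self _
    have ha1 : a (cst 1 (by norm_num)) = D := rfl
    obtain ⟨k0, hk0⟩ := near hac 0 (by norm_num) (isOpen_Iio (a := D / 3)) (by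
      rw [ha0]
      exact mem_Iio.2 (by positivity))
    obtain ⟨k1, hk1⟩ := near hac 1 (by norm_num) (isOpen_Ioi (a := 2 * D / 3)) (by
      rw [ha1]
      exact mem_Ioi.2 (by linarith))
    set k : ℕ := max k0 k1 with hk
    set L : ℕ := 2 * k + 2 with hL
    have hreal : ∀ (M : ℕ) (v : Fin (M + 1) → ℝ), (∀ j, D / 3 ≤ v j ∧ v j ≤ D / 3 + D / 3) →
        ∃ y : Y, ∀ j : Fin (M + 1), F ((ψ 1)^[(j : ℕ) * L] y) = v j := by
      intro M v hv
      obtain ⟨g, hg⟩ := realize hac (l := D / 3) (u := 2 * D / 3) (k := k)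
        (fun g h => (mem_Iio.1 (hk0 k (le_max_left _ _) g h)).le)
        (fun g h => (mem_Ioi.1 (hk1 k (le_max_right _ _) g h)).le) M v
        (fun j => ⟨(hv j).1, by linarith [(hv j).2]⟩)
      refine ⟨π (g, 0), fun j => ?_⟩
      have hit : ∀ (i : ℕ) (y : Y), (ψ 1)^[i] y = ψ (i : ℝ) y := by
        intro i
        induction i with
        | zero => intro y; simp
        | succ i ih =>
          intro y
          rw [Function.iterate_succ_apply', ih, ← Flow.map_add]
          congr 1
          push_cast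
          ring
      rw [hit, ← hπ, ← hg j]
      show F (π _) = F (π _)
      congr 2
      refine Prod.ext ?_ ?_
      · show shift (((j : ℕ) * L : ℕ) : ℝ) g = shift ((j : ℕ) * ((2 * k + 2 : ℕ) : ℝ)) g
        rw [Nat.cast_mul]
      · show (0 : AddCircle (1 : ℝ)) + ((((j : ℕ) * L : ℕ) : ℝ) : AddCircle (1 : ℝ)) = 0
        rw [zero_add, AddCircle.coe_eq_zero_iff]
        exact ⟨(((j : ℕ) * L : ℕ) : ℤ), by simp⟩
    have hFl : ∀ x y, |F x - F y| ≤ dist x y := fun x y => abs_dist_sub_le x y y0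
    have hU : ∀ m : ℕ, 0 < m → {p : Y × Y | dist p.1 p.2 < D / 3 / (2 * m)} ∈ uniformity Y := by
      intro m hm
      have hm0 : (0 : ℝ) < m := by exact_mod_cast hm
      exact Metric.dist_mem_uniformity (by positivity)
    rw [EReal.eq_top_iff_forall_lt]
    intro r
    set r' : ℝ := |r| + 1 with hr'
    have hr'0 : 0 < r' := by positivity
    obtain ⟨m, hm⟩ := exists_nat_ge (Real.exp (r' * L))
    have hm0 : 0 < m := by
      have : (0 : ℝ) < m := (Real.exp_pos _).trans_le hm
      exact_mod_cast this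
    have hkey : ((r' : ℝ) : EReal) ≤ netEntropyEntourage (ψ 1) univ
        {p : Y × Y | dist p.1 p.2 < D / 3 / (2 * m)} := by
      refine Frequently.le_expGrowthSup ?_
      rw [frequently_atTop]
      intro N
      refine ⟨L * N + 1, ?_, ?_⟩
      · have : 1 * N ≤ L * N := Nat.mul_le_mul_right _ (by omega)
        omega
      · have hc := net_card (ψ 1) hFl (l := D / 3) (D := D / 3) (by positivity) (m := m) (L := L)
          (M := N) hm0 (hreal N)
        have hc2 : ((((m + 1) ^ (N + 1) : ℕ) : ℕ∞) : ENNReal) ≤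
            (netMaxcard (ψ 1) univ {p : Y × Y | dist p.1 p.2 < D / 3 / (2 * m)} (L * N + 1) : ENNReal) :=
          ENat.toENNReal_mono hc
        refine le_trans ?_ hc2
        have e1 : (r' : EReal) * ((L * N + 1 : ℕ) : EReal) = ((r' * ((L * N + 1 : ℕ) : ℝ) : ℝ) : EReal) := by
          rw [EReal.coe_mul, EReal.coe_natCast]
        rw [e1, EReal.exp_coe]
        have e2 : ((((m + 1) ^ (N + 1) : ℕ) : ℕ∞) : ENNReal) = ENNReal.ofReal (((m : ℝ) + 1) ^ (N + 1)) := by
          rw [ENat.toENNReal_coe, ← ENNReal.ofReal_natCast]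
          push_cast
          rfl
        rw [e2]
        refine ENNReal.ofReal_le_ofReal ?_
        calc Real.exp (r' * ((L * N + 1 : ℕ) : ℝ)) ≤ Real.exp (((N + 1 : ℕ) : ℝ) * (r' * L)) := by
              refine Real.exp_le_exp.2 ?_
              have h2 : (L * N + 1 : ℕ) ≤ (N + 1) * L := by
                have : 1 ≤ L := by omega
                nlinarith
              have h3 : ((L * N + 1 : ℕ) : ℝ) ≤ (((N + 1) * L : ℕ) : ℝ) := by exact_mod_cast h2
              calc r' * ((L * N + 1 : ℕ) : ℝ) ≤ r' * (((N + 1) * L : ℕ) : ℝ) := by gcongr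
                _ = ((N + 1 : ℕ) : ℝ) * (r' * L) := by push_cast; ring
          _ = Real.exp (r' * L) ^ (N + 1) := by rw [Real.exp_nat_mul]
          _ ≤ ((m : ℝ) + 1) ^ (N + 1) := by
              gcongr
              linarith
    have hfin := hkey.trans (netEntropyEntourage_le_coverEntropy (ψ 1) univ (hU m hm0))
    refine lt_of_lt_of_le ?_ hfin
    exact_mod_cast (lt_of_le_of_lt (le_abs_self r) (by linarith : |r| < r'))

end Pool.Agent.Results.MP_54b048_an.InfiniteEntropyFactors
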